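import Mathlib
import Pool.Agent.Y723.Z8.StmS
import Pool.Agent.Y455.Z8.Avg
import Pool.Agent.W782.RS.Avg2s

/-!
# Project Z8S (helper723), job AVGSS (by helper383): the average over a short square, for a general
function of the curve

After `Pool.Agent.Y455.Z8.Avg` (helper455) and `Pool.Agent.W782.RS.Avg2s` (helper782).
-/

set_option autoImplicit false

namespace Pool.Agent.Y383.Z8

open Finset Pool.Agent.W262.RK Pool.Agent.W307.RT Pool.Agent.TH841.PT Pool.Agent.Y723.Z8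
open Pool.Agent.Y455.Z8 (pr8_Gd F8_ne rr8_bd NBT_nonneg antx)
open Pool.Agent.W782.RS (Th small)
open Pool.Agent.W307.SE (SN GGg SN_nonneg)

/-- the bound by the local count, for a function of the curve (as `S_RNK`, `S_RNKS`) -/
def RG8 (Rf : ℤ → ℤ → ℝ) : Prop := ∃ z0 : ℕ, ∀ z, z0 ≤ z → ∃ C0 D : ℝ, 0 ≤ C0 ∧ 1 ≤ D ∧
  ∀ (X y k : ℕ) (a b : ℤ), IsCoprime a b → (∀ j, F8 a b j ≠ 0) → a.natAbs ≤ X → b.natAbs ≤ X →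
  1 ≤ X → z < y → X < (y + 1) ^ k →
    Rf (-(M8 a b)) (-(N8 a b)) ≤
      C0 * D ^ k * 4 ^ (∑ i, (S2 z y (pr8 z a b) i).primeFactors.card) *
        NBT cls8 e8 (S1 z y (pr8 z a b))

open Classical in
/-- the pairs -/
noncomputable def TS8 (N1 N2 : ℤ) (X : ℕ) : Finset (ℕ × ℕ) :=
  (Icc 1 X ×ˢ Icc 1 X).filter (fun t : ℕ × ℕ =>
      IsCoprime (N1 + (t.1 : ℤ)) (N2 + (t.2 : ℤ)) ∧
      M8 (N1 + (t.1 : ℤ)) (N2 + (t.2 : ℤ)) ≠ 0 ∧ N8 (N1 + (t.1 : ℤ)) (N2 + (t.2 : ℤ)) ≠ 0 ∧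
      M8 (N1 + (t.1 : ℤ)) (N2 + (t.2 : ℤ)) ≠ N8 (N1 + (t.1 : ℤ)) (N2 + (t.2 : ℤ)))

lemma mem_TS8 {N1 N2 : ℤ} {X : ℕ} {t : ℕ × ℕ} : t ∈ TS8 N1 N2 X ↔
    t ∈ Icc 1 X ×ˢ Icc 1 X ∧ IsCoprime (N1 + (t.1 : ℤ)) (N2 + (t.2 : ℤ)) ∧
      M8 (N1 + (t.1 : ℤ)) (N2 + (t.2 : ℤ)) ≠ 0 ∧ N8 (N1 + (t.1 : ℤ)) (N2 + (t.2 : ℤ)) ≠ 0 ∧
      M8 (N1 + (t.1 : ℤ)) (N2 + (t.2 : ℤ)) ≠ N8 (N1 + (t.1 : ℤ)) (N2 + (t.2 : ℤ)) := by
  unfold TS8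
  rw [mem_filter]

/-- the summand -/
noncomputable def rr0 (Rf : ℤ → ℤ → ℝ) (N1 N2 : ℤ) (t : ℕ × ℕ) : ℝ :=
  Rf (-(M8 (N1 + (t.1 : ℤ)) (N2 + (t.2 : ℤ)))) (-(N8 (N1 + (t.1 : ℤ)) (N2 + (t.2 : ℤ))))

lemma rr0_nonneg {Rf : ℤ → ℤ → ℝ} (hRf : ∀ A B, 0 ≤ Rf A B) (N1 N2 : ℤ) (t : ℕ × ℕ) :
    0 ≤ rr0 Rf N1 N2 t := hRf _ _

lemma sum_GGg (Rf : ℤ → ℤ → ℝ) (N1 N2 : ℤ) (X : ℕ) :
    ∑ t ∈ Icc 1 X ×ˢ Icc 1 X, GGg Rf M8 N8 (N1 + (t.1 : ℤ), N2 + (t.2 : ℤ)) =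
      ∑ t ∈ TS8 N1 N2 X, rr0 Rf N1 N2 t := by
  classical
  unfold TS8
  rw [sum_filter]
  refine sum_congr rfl fun t _ => ?_
  rfl

lemma abs_le_pow {N : ℤ} {X B t : ℕ} (hX : 2 ≤ X) (hN : N.natAbs ≤ X ^ B) (ht : t ≤ X) :
    (N + (t : ℤ)).natAbs ≤ X ^ (B + 2) := by
  have h1 : (N + (t : ℤ)).natAbs ≤ X ^ B + X := by omega
  refine h1.trans ?_
  have h2 : 1 ≤ X ^ B := Nat.one_le_pow _ _ (by omega)
  calc X ^ B + X ≤ X ^ B * X + X ^ B * X :=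
        add_le_add (Nat.le_mul_of_pos_right _ (by omega)) (Nat.le_mul_of_pos_left _ h2)
    _ = X ^ B * X * 2 := by ring
    _ ≤ X ^ B * X * X := Nat.mul_le_mul_left _ hX
    _ = X ^ (B + 2) := by ring

/-- **the average over a short square, for a function of the curve** -/
theorem avgg_of {Rf : ℤ → ℤ → ℝ} (hRf : ∀ A B, 0 ≤ Rf A B) (h1 : S_CNTS) (h2 : RG8 Rf)
    (h3 : S_MAK) : ∀ B : ℕ, ∃ C : ℝ, ∀ (N1 N2 : ℤ) (X : ℕ), 1 ≤ X → N1.natAbs ≤ X ^ B →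
    N2.natAbs ≤ X ^ B →
      ∑ t ∈ Icc 1 X ×ˢ Icc 1 X, GGg Rf M8 N8 (N1 + (t.1 : ℤ), N2 + (t.2 : ℤ)) ≤ C * X ^ 2 := by
  classical
  intro B
  obtain ⟨z1, hz1⟩ := h1
  obtain ⟨z2, hz2⟩ := h2
  obtain ⟨z3, hz3⟩ := h3
  obtain ⟨z, hz⟩ : ∃ z : ℕ, z = z1 + z2 + z3 + 22 := ⟨_, rfl⟩
  obtain ⟨Cc, K, y0, hCc0, hK1, hcn⟩ := hz1 z (by omega) B
  obtain ⟨CR, D, hCR0, hD1, hrn⟩ := hz2 z (by omega)
  obtain ⟨CM, hCM⟩ := hz3 z (by omega)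
  have hlog : ∀ y : ℕ, z < y → 0 < Real.log y := fun y hy =>
    Real.log_pos (by exact_mod_cast (by omega : 1 < y))
  have hgn : ∀ {y' : ℕ} {s : Fin 7 × Bool → ℕ} (_ : s ∈ Tup (Fin 7 × Bool) z y')
      (i : Fin 7 × Bool), 0 ≤ gp (rr8 i) 10 (s i) := fun hs i =>
    RSPf.gp_nonneg (fun p => (rr8_bd i p).1) (by omega)
      ((Pool.Agent.W405.RK2.mem_Tup.1 hs).1 i)
  suffices key : ∃ C2 : ℝ, ∀ θ : Th B, ∑ t ∈ TS8 θ.1.1 θ.1.2.1 θ.1.2.2,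
      rr0 Rf θ.1.1 θ.1.2.1 t ≤ C2 * ((θ.1.2.2 : ℝ) ^ 2) by
    obtain ⟨C2, hC2⟩ := key
    refine ⟨C2, fun N1 N2 X hX h4 h5 => ?_⟩
    rw [sum_GGg]
    exact hC2 ⟨(N1, N2, X), hX, h4, h5⟩
  refine antx (Fin 7 × Bool) (ℕ × ℕ) (Th B)
    (fun θ => TS8 θ.1.1 θ.1.2.1 θ.1.2.2)
    (fun θ => θ.1.2.2) (fun θ t => pr8 z (θ.1.1 + (t.1 : ℤ)) (θ.1.2.1 + (t.2 : ℤ)))
    (fun θ => (θ.1.2.2 : ℝ) ^ 2) z
    (fun y => (Real.log y) ^ 7)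
    (fun s => NBT cls8 e8 s * ∏ i, gp (rr8 i) 10 (s i))
    (fun v => ∏ i, ((4 : ℝ) ^ (v i).primeFactors.card * (gp (rr8 i) 10 (v i) / v i)))
    (fun w => ∏ i, ((2 : ℝ) ^ (w i).primeFactors.card / (w i : ℝ)))
    (fun θ t => rr0 Rf θ.1.1 θ.1.2.1 t) (Cc * CR) (D ^ (B + 2)) K (y0 + 2)
    (by omega) (fun y hy => pow_pos (hlog y hy) 7)
    (fun θ => θ.2.1) (fun θ => by positivity) (fun X0 => ?_) (fun θ t ht => ?_)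
    (fun θ t => rr0_nonneg hRf _ _ _) (mul_nonneg hCc0 hCR0) (one_le_pow₀ hD1) hK1
    (fun y s hs => ⟨?_, ?_⟩) (fun y Y hzy w hw => ?_) (fun lam hlam => ?_)
    (fun lam hlam => ?_) (fun lam hlam => ?_) ?_
  · -- small scales
    obtain ⟨E, hE0, hE⟩ := small (fun N1 N2 X => ∑ t ∈ TS8 N1 N2 X, rr0 Rf N1 N2 t)
      (fun _ _ _ => sum_nonneg fun _ _ => rr0_nonneg hRf _ _ _) B X0
    refine ⟨E, fun θ hθ => ?_⟩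
    refine (hE θ.1.1 θ.1.2.1 θ.1.2.2 θ.2.1 hθ θ.2.2.1 θ.2.2.2).trans ?_
    have h4 : (1 : ℝ) ≤ (θ.1.2.2 : ℝ) ^ 2 := one_le_pow₀ (by exact_mod_cast θ.2.1)
    exact le_mul_of_one_le_right hE0 h4
  · have h4 := (mem_TS8.1 ht).2
    exact pr8_Gd (by omega) h4.1 (F8_ne h4.2.1 h4.2.2.1 h4.2.2.2)
  · exact mul_nonneg (NBT_nonneg _ _ _) (prod_nonneg fun i _ => hgn hs i)
  · exact prod_nonneg fun i _ => mul_nonneg (by positivity)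
      (div_nonneg (hgn hs i) (Nat.cast_nonneg _))
  · exact prod_nonneg fun i _ => by positivity
  · -- the first sum
    obtain ⟨A, hA⟩ := RSPf.rsp (Fin 7 × Bool) z 10 rr8 (NBT cls8 e8)
      (fun y => CM * (Real.log y) ^ 7) 4 lam (by omega) rr8_bd (by norm_num) hlam
      (NBT_nonneg _ _)
      (fun y hy s e' hse => SubT.subt (Fin 7 × Bool) cls8 e8 z y (by omega) s e' hse)
      (fun y hy => hCM y hy)
    refine ⟨A * CM, fun y hy => ?_⟩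
    have := hA y hy
    rw [mul_assoc]
    exact this
  · exact RVU.rvp (Fin 7 × Bool) z 10 rr8 4 lam (by omega) rr8_bd (by norm_num) hlam
  · exact RVU.rup (Fin 7 × Bool) 2 lam (by norm_num) hlam
  -- the local majorant
  rintro ⟨⟨N1, N2, X⟩, hX1, hN1, hN2⟩ y Y k hy0 hzy hyK hk s hs v hv w hw h8 T' hT' hval
  simp only at hX1 hN1 hN2 hyK hk h8 hT' hval ⊢
  have hX2 : 2 ≤ X := by
    have h4 : y ≤ y ^ K := Nat.le_self_pow (by omega) y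
    omega
  obtain ⟨W, hW⟩ : ∃ W : ℝ, W = CR * (D ^ (B + 2)) ^ k *
      4 ^ (∑ i, (v i).primeFactors.card) * NBT cls8 e8 s := ⟨_, rfl⟩
  have hW0 : 0 ≤ W := by
    rw [hW]
    exact mul_nonneg (by positivity) (NBT_nonneg _ _ _)
  have e1 : ∀ t ∈ T', rr0 Rf N1 N2 t ≤ W := by
    intro t ht
    have h4 := mem_TS8.1 (hT' ht)
    obtain ⟨hts, htv, _⟩ := hval t ht
    have h5 := mem_product.1 h4.1
    rw [mem_Icc, mem_Icc] at h5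
    have hk' : X ^ (B + 2) < (y + 1) ^ (k * (B + 2)) := by
      rw [pow_mul]
      exact Nat.pow_lt_pow_left hk (by omega)
    have h6 := hrn (X ^ (B + 2)) y (k * (B + 2)) (N1 + (t.1 : ℤ)) (N2 + (t.2 : ℤ)) h4.2.1
      (F8_ne h4.2.2.1 h4.2.2.2.1 h4.2.2.2.2) (abs_le_pow hX2 hN1 h5.1.2)
      (abs_le_pow hX2 hN2 h5.2.2) (Nat.one_le_pow _ _ (by omega)) hzy hk'
    rw [hts, htv, pow_mul'] at h6
    rw [hW]
    exact h6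
  have e3 : (T'.card : ℝ) ≤ Cc * X ^ 2 * (∏ i, gp (rr8 i) 10 (s i)) *
      (∏ i, gp (rr8 i) 10 (v i) / v i) * (∏ i, 2 ^ (w i).primeFactors.card / (w i : ℝ)) /
        (Real.log y) ^ 7 := by
    refine le_trans (Nat.cast_le.2 (card_le_card ?_))
      (hcn N1 N2 X y Y hN1 hN2 (by omega) hzy hyK s hs v hv w hw h8)
    intro t ht
    have h5 := mem_TS8.1 (hT' ht)
    have h6 := hval t ht
    exact mem_filter.2 ⟨h5.1, h5.2.1, F8_ne h5.2.2.1 h5.2.2.2.1 h5.2.2.2.2, h6.1, h6.2.1,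
      h6.2.2⟩
  calc ∑ t ∈ T', rr0 Rf N1 N2 t ≤ ∑ _t ∈ T', W := sum_le_sum e1
    _ = (T'.card : ℝ) * W := by rw [sum_const, nsmul_eq_mul]
    _ ≤ _ := mul_le_mul_of_nonneg_right e3 hW0
    _ = _ := by
        rw [hW, prod_mul_distrib (f := fun i => (4 : ℝ) ^ (v i).primeFactors.card),
          prod_pow_eq_pow_sum]
        ring

/-- **AVGSS** -/
theorem avgss_of (h1 : S_CNTS) (h2 : S_RNKS) (h3 : S_MAK) : S_AVGSS :=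
  avgg_of SN_nonneg h1 h2 h3

/-- the average of `2 ^ rank` over a short square is the case of the function `2 ^ rank` -/
theorem avgs_of (h1 : S_CNTS) (h2 : S_RNK) (h3 : S_MAK) : S_AVGS :=
  avgg_of (Rf := fun A B => (2 : ℝ) ^ Module.finrank ℤ (EAB A B).toAffine.Point)
    (fun _ _ => by positivity) h1 h2 h3

end Pool.Agent.Y383.Z8
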